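import Mathlib
import Pool.Agent.Lib.MP_566f59_al.Main

/-!
No combing of Thompson's group `F` over a finite set of generators `x_i^{±1}` has stretch less
than `2`, even if the constants of the asynchronous fellow traveller property are allowed to grow
linearly, with small slope, in the lengths of the two words.
-/

theorem Pool.Agent.Results.MP_566f59_al.StretchTwo.result (lam : ℝ) (hlam : lam < 2) :
    ∃ ε : ℝ, 0 < ε ∧
      ∀ (A : Type) [Finite A]
        (ι : A → PresentedGroup {r : FreeGroup ℕ | ∃ i k : ℕ, i < k ∧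
          r = FreeGroup.of i * FreeGroup.of k * (FreeGroup.of i)⁻¹ * (FreeGroup.of (k + 1))⁻¹}),
        (∀ a : A, ∃ i : ℕ, ι a = PresentedGroup.of i ∨ ι a = (PresentedGroup.of i)⁻¹) →
        (∀ a : A, ∃ b : A, ι b = (ι a)⁻¹) →
        ∀ L : Set (List A), (∀ g, ∃ u ∈ L, (u.map ι).prod = g) →
        ∀ C D : ℝ,
          (∀ u ∈ L, ∀ v ∈ L,
            (((u.map ι).prod)⁻¹ * (v.map ι).prod = 1 ∨
              ∃ a : A, ((u.map ι).prod)⁻¹ * (v.map ι).prod = ι a) →
            ∃ φ ψ : ℕ → ℕ, φ 0 = 0 ∧ ψ 0 = 0 ∧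
              (∀ t, φ (t + 1) = φ t ∨ φ (t + 1) = φ t + 1) ∧
              (∀ t, ψ (t + 1) = ψ t ∨ ψ (t + 1) = ψ t + 1) ∧
              (∃ T, u.length ≤ φ T ∧ v.length ≤ ψ T) ∧
              ∀ t, ∃ w : List A, (w.length : ℝ) ≤ ε * (u.length + v.length) + D ∧
                (w.map ι).prod =
                  (((u.take (φ t)).map ι).prod)⁻¹ * ((v.take (ψ t)).map ι).prod) →
          ∃ w : List A, ∀ u ∈ L, (u.map ι).prod = (w.map ι).prod →
            lam * w.length + C < u.length := by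
  obtain ⟨ε, hε, h⟩ := Pool.Agent.Lib.MP_566f59_al.main lam hlam
  exact ⟨ε, hε, fun A _ ι hι hinv L hL C D hF => h A ι hι hinv L hL C D hF⟩
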